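import Pool.Agent.W761.CC.All

/-!
# Complete Bose-Einstein condensation of the dilute Bose gas in the continuum, with a weak
long-range hopping

The Bose gas on the torus of side `L` in dimension `n ≥ 3` with the Hamiltonian

`∑_i (-μ Δ_i) + ∑_i (∫ K - K *)_i + ∑_{i<j} v(|x_i - x_j|) - δ N`,

where `v ≥ 0` is any pair potential with `0 < ∫ v(|z|) dz < ∞` and `K ≥ 0` is a weak hopping kernel.
In the thermodynamic limit the (near) ground states have the density `(1 + o(1)) δ / scat` and the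
fraction `1 - o(1)` of the particles is in the condensate, as `δ → 0`.

`scat n μ v` is twice the infimum of `μ ∫ |∇ f|² + (1/2) ∫ v f²` over the `f` equal to `1` outside a
bounded set; for `n = 3` it is `8 π μ a`, where `a` is the scattering length.
-/

set_option autoImplicit false

open MeasureTheory
open scoped ENNReal

namespace Pool.Agent.Results.MP_4952d6_mp.CompleteCondensation

open Pool.Agent.W761.CB Pool.Agent.W761.CC

/-- **Complete condensation in the dilute limit.**  `n ≥ 3`, `μ, σ, c, τ > 0`, `σ < 2 n`,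
`g < n - 1`, and `v` is a pair potential with `0 < ∫ v(|z|) dz < ∞`.  The scattering constant
`G = scat n μ v` is positive, and for every `ε > 0` there is `δ₀ > 0` such that for all
`δ ∈ (0, δ₀]` there are `c₁ > 0` and `L₀` such that for all `L ≥ L₀` and all kernels `K` with
`∫ K(z) min(1, |z|²) dz ≤ δ₀`, `∫ K(z) min(1, δ |z|²) dz ≤ τ δ` and
`K(z) ≥ c δ^(g + n/2) (1 + √δ |z|)^(-(n + σ))`: the energy minus `δ N` is bounded below, and every
symmetric `Ψ` of norm one which minimises it up to `c₁ L^(n - σ)` has a number of particles `N` with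
`|N / L^n - δ / G| ≤ ε δ / G`, and at least the fraction `1 - ε` of the particles is in the
condensate. -/
theorem result (n : ℕ) (hn : 3 ≤ n) (μ σ g c τ : ℝ) (hμ : 0 < μ) (hσ : 0 < σ)
    (hσn : σ < 2 * n) (hg : g < n - 1) (hc : 0 < c) (hτ : 0 < τ) (v : ℝ → ℝ≥0∞)
    (hv : Measurable v) (hv0 : ∫⁻ z : Fin n → ℝ, v (el z) ≠ 0)
    (hv1 : ∫⁻ z : Fin n → ℝ, v (el z) ≠ ⊤) :
    0 < scat n μ v ∧ ∀ ε : ℝ, 0 < ε → ∃ δ₀ : ℝ, 0 < δ₀ ∧ ∀ δ : ℝ, 0 < δ → δ ≤ δ₀ →
      ∃ c₁ L₀ : ℝ, 0 < c₁ ∧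
      ∀ (L : ℝ) [Fact (0 < L)] (K : (Fin n → ℝ) → ℝ≥0∞), L₀ ≤ L → Measurable K →
      ∫⁻ z, K z * ENNReal.ofReal (min 1 (el z ^ 2)) ≤ ENNReal.ofReal δ₀ →
      ∫⁻ z, K z * ENNReal.ofReal (min 1 (δ * el z ^ 2)) ≤ ENNReal.ofReal (τ * δ) →
      (∀ z, ENNReal.ofReal (c * δ ^ (g + n / 2) * (1 + √δ * el z) ^ (-(n + σ))) ≤ K z) →
      (∃ C : ℝ, ∀ (N : ℕ) (Φ : (Fin N → Tor n L) → ℂ), IsWf Φ →
        ENNReal.ofReal (δ * N) ≤ enN (ENNReal.ofReal μ) K v Φ + ENNReal.ofReal C) ∧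
      ∀ (N : ℕ) (Ψ : (Fin N → Tor n L) → ℂ), IsWf2 Ψ →
        (∀ (N' : ℕ) (Φ : (Fin N' → Tor n L) → ℂ), IsWf Φ →
          enN (ENNReal.ofReal μ) K v Ψ + ENNReal.ofReal (δ * N') ≤
            enN (ENNReal.ofReal μ) K v Φ + ENNReal.ofReal (δ * N + c₁ * L ^ (n - σ))) →
        |N / L ^ n - δ / scat n μ v| ≤ ε * (δ / scat n μ v) ∧ (1 - ε) * N ≤ condN Ψ :=
  core2_thm n μ σ g τ c v hn hμ hσ hσn (by linarith) hτ hc hv hv0 hv1

end Pool.Agent.Results.MP_4952d6_mp.CompleteCondensation
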